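import Pool.Agent.Helper93.FZ.St

/-!
# Module TRI of project FZ (MP_953b28_co)

The weights of a protoplex, and the fractional completion obtained from the solution of the fractional
problem for these weights.
-/

set_option autoImplicit false

namespace Pool.Agent.Helper40.FZ

open Pool.Agent.Helper93.FZ
open Finset
open Pool.Agent.Helper92.Proto (IsProtoplex)

private lemma card_fst {α β : Type} [Fintype α] [Fintype β] [DecidableEq α] (R : α → β → Prop)
    [DecidablePred fun a => ∃ b, R a b] [DecidablePred fun x : α × β => R x.1 x.2]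
    (h : ∀ a b b', R a b → R a b' → b = b') :
    (univ.filter fun a => ∃ b, R a b).card = (univ.filter fun x : α × β => R x.1 x.2).card := by
  have himg : (univ.filter fun a => ∃ b, R a b) = (univ.filter fun x : α × β => R x.1 x.2).image Prod.fst := by
    ext a
    simp only [mem_filter, mem_univ, true_and, mem_image, Prod.exists, exists_and_right, exists_eq_right]
  rw [himg]
  refine Finset.card_image_of_injOn ?_
  rintro ⟨a, b⟩ hx ⟨a', b'⟩ hy hxy
  simp only [coe_filter, mem_univ, true_and, Set.mem_ofPred_eq] at hx hy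
  simp only at hxy
  subst hxy
  rw [h a b b' hx hy]

private lemma card_snd {α β : Type} [Fintype α] [Fintype β] [DecidableEq β] (R : α → β → Prop)
    [DecidablePred fun b => ∃ a, R a b] [DecidablePred fun x : α × β => R x.1 x.2]
    (h : ∀ a a' b, R a b → R a' b → a = a') :
    (univ.filter fun b => ∃ a, R a b).card = (univ.filter fun x : α × β => R x.1 x.2).card := by
  have himg : (univ.filter fun b => ∃ a, R a b) = (univ.filter fun x : α × β => R x.1 x.2).image Prod.snd := by
    ext b
    simp only [mem_filter, mem_univ, true_and, mem_image, Prod.exists, exists_eq_right]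
  rw [himg]
  refine Finset.card_image_of_injOn ?_
  rintro ⟨a, b⟩ hx ⟨a', b'⟩ hy hxy
  simp only [coe_filter, mem_univ, true_and, Set.mem_ofPred_eq] at hx hy
  simp only at hxy
  subst hxy
  rw [h a a' b hx hy]

private lemma sum_not {n k : ℕ} (p : Fin n → Prop) [DecidablePred p] (h : (univ.filter p).card = k) :
    ∑ i, (if p i then (0 : ℝ) else 1) = n - k := by
  have h1 : ∀ i ∈ (univ : Finset (Fin n)), (if p i then (0 : ℝ) else 1) = 1 - (if p i then (1 : ℝ) else 0) := by
    intro i _
    by_cases hp : p i
    · simp [hp]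
    · simp [hp]
  rw [sum_congr rfl h1, sum_sub_distrib, sum_boole, h]
  simp

private lemma sum_one {n : ℕ} (p : Fin n → Prop) [DecidablePred p] (i : Fin n) (hi : p i)
    (hu : ∀ j, p j → j = i) : ∑ j, (if p j then (1 : ℝ) else 0) = 1 := by
  rw [sum_eq_single i]
  · rw [if_pos hi]
  · intro j _ hj
    rw [if_neg fun hp => hj (hu j hp)]
  · intro hi'
    exact absurd (mem_univ i) hi'

private lemma poly_pos {n k : ℝ} (hn : 0 < n) (hk : 0 ≤ k) (h : 97 * k ≤ 20 * n) :
    0 < n ^ 3 - 8 * n ^ 2 * k + 19 * n * k ^ 2 - 18 * k ^ 3 := by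
  obtain ⟨d, hd⟩ : ∃ d, d = 20 * n - 97 * k := ⟨_, rfl⟩
  have hd0 : 0 ≤ d := by linarith
  have hnd : n = (97 * k + d) / 20 := by
    rw [hd]
    ring
  have h1 : 8000 * (n ^ 3 - 8 * n ^ 2 * k + 19 * n * k ^ 2 - 18 * k ^ 3) =
      d ^ 3 + 131 * d ^ 2 * k + 4787 * d * k ^ 2 + 433 * k ^ 3 := by
    rw [hnd]
    ring
  have h2 : 0 ≤ 131 * d ^ 2 * k := by positivity
  have h3 : 0 ≤ 4787 * d * k ^ 2 := by positivity
  rcases eq_or_lt_of_le hk with hk0 | hk0
  · rw [← hk0]
    have : 0 < n ^ 3 := by positivity
    nlinarith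
  · have h4 : 0 < 433 * k ^ 3 := by positivity
    have h5 : 0 ≤ d ^ 3 := by positivity
    linarith

private lemma psi_pos {n k : ℝ} (hn : 0 < n) (hk : 0 ≤ k) (h : 97 * k ≤ 20 * n) : 0 < Psi n k (n * k) := by
  have h1 : Psi n k (n * k) = n * (n ^ 3 - 8 * n ^ 2 * k + 19 * n * k ^ 2 - 18 * k ^ 3) := by
    unfold Psi
    ring
  rw [h1]
  exact mul_pos hn (poly_pos hn hk h)

/-- the weights row-column -/
private noncomputable def wA {n : ℕ} (P : Fin n → Fin n → Option (Fin n)) (r c : Fin n) : ℝ :=
  if P r c ≠ none then 0 else 1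

/-- the weights column-symbol -/
private noncomputable def wB {n : ℕ} (P : Fin n → Fin n → Option (Fin n)) (c s : Fin n) : ℝ :=
  if ∃ r, P r c = some s then 0 else 1

/-- the weights symbol-row -/
private noncomputable def wC {n : ℕ} (P : Fin n → Fin n → Option (Fin n)) (s r : Fin n) : ℝ :=
  if ∃ c, P r c = some s then 0 else 1

private lemma ite_range (p : Prop) [Decidable p] : 0 ≤ (if p then (0 : ℝ) else 1) ∧ (if p then (0 : ℝ) else 1) ≤ 1 := by
  by_cases hp : p
  · simp [hp]
  · simp [hp]

private lemma wt_ok {n k : ℕ} {P : Fin n → Fin n → Option (Fin n)} (hP : IsProtoplex n k P) :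
    Wt n (k : ℝ) (wA P) (wB P) (wC P) (fun _ => (k : ℝ)) (fun _ => (k : ℝ)) (fun _ => (k : ℝ)) := by
  have hne : ∀ o : Option (Fin n), o ≠ none ↔ ∃ s, o = some s := fun o => Option.ne_none_iff_exists'
  refine ⟨fun i j => (ite_range _).1, fun i j => (ite_range _).1, fun i j => (ite_range _).1,
    fun i j => (ite_range _).2, fun i j => (ite_range _).2, fun i j => (ite_range _).2,
    ?_, ?_, ?_, ?_, ?_, ?_, fun _ => le_rfl, fun _ => le_rfl, fun _ => le_rfl⟩
  · intro r
    exact sum_not _ (hP.row r)
  · intro r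
    refine sum_not (fun s => ∃ c, P r c = some s) ?_
    have h1 := hP.row r
    rw [card_snd (fun c s => P r c = some s) (fun c c' s h h' => hP.row_inj r c c' s h h')]
    rw [← h1, ← card_fst (fun c s => P r c = some s)
      (fun c s s' h h' => Option.some.inj (h.symm.trans h'))]
    congr 1
    ext c
    simp only [mem_filter, mem_univ, true_and, hne]
  · intro c
    refine sum_not (fun s => ∃ r, P r c = some s) ?_
    have h1 := hP.col c
    rw [card_snd (fun r s => P r c = some s) (fun r r' s h h' => hP.col_inj r r' c s h h')]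
    rw [← h1, ← card_fst (fun r s => P r c = some s)
      (fun c s s' h h' => Option.some.inj (h.symm.trans h'))]
    congr 1
    ext c
    simp only [mem_filter, mem_univ, true_and, hne]
  · intro c
    exact sum_not (fun r => P r c ≠ none) (hP.col c)
  · intro s
    refine sum_not (fun r => ∃ c, P r c = some s) ?_
    rw [card_fst (fun r c => P r c = some s) (fun r c c' h h' => hP.row_inj r c c' s h h')]
    exact hP.symbol s
  · intro s
    refine sum_not (fun c => ∃ r, P r c = some s) ?_
    rw [card_snd (fun r c => P r c = some s) (fun r r' c h h' => hP.col_inj r r' c s h h')]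
    exact hP.symbol s

private lemma prod_one {n : ℕ} {P : Fin n → Fin n → Option (Fin n)} {r c s : Fin n} (h : Avail P r c s) :
    wA P r c * wB P c s * wC P s r = 1 := by
  obtain ⟨h1, h2, h3⟩ := h
  have hA : wA P r c = 1 := if_neg fun h => h h1
  have hB : wB P c s = 1 := if_neg fun ⟨r', h⟩ => h3 r' h
  have hC : wC P s r = 1 := if_neg fun ⟨c', h⟩ => h2 c' h
  rw [hA, hB, hC]
  norm_num

private lemma prod_zero {n : ℕ} {P : Fin n → Fin n → Option (Fin n)} {r c s : Fin n} (h : ¬ Avail P r c s) :
    wA P r c * wB P c s * wC P s r = 0 := by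
  by_cases h1 : P r c = none
  · by_cases h2 : ∃ c', P r c' = some s
    · have hC : wC P s r = 0 := if_pos h2
      rw [hC, mul_zero]
    · by_cases h3 : ∃ r', P r' c = some s
      · have hB : wB P c s = 0 := if_pos h3
        rw [hB, mul_zero, zero_mul]
      · exact absurd ⟨h1, fun c' hc => h2 ⟨c', hc⟩, fun r' hr => h3 ⟨r', hr⟩⟩ h
  · have hA : wA P r c = 0 := if_pos h1
    rw [hA, zero_mul, zero_mul]

theorem hTRI : StTRI := by
  intro hyp n k P hP hk
  rcases Nat.eq_zero_or_pos n with hn | hn
  · subst hn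
    exact ⟨fun r => r.elim0, ⟨fun r => r.elim0, fun r => r.elim0, fun r => r.elim0, fun r => r.elim0,
      fun r => r.elim0⟩, fun r => r.elim0, fun r => r.elim0⟩
  have hnR : (0 : ℝ) < n := by exact_mod_cast hn
  have hkR : (0 : ℝ) ≤ k := by positivity
  have hk' : 97 * (k : ℝ) ≤ 20 * n := by exact_mod_cast hk
  have h4 : 4 * (k : ℝ) < n := by linarith
  have hsum : ∑ _r : Fin n, (k : ℝ) = n * k := by simp
  have hpsi : 0 < Psi n k (∑ _r : Fin n, (k : ℝ)) := by
    rw [hsum]
    exact psi_pos hnR hkR hk'
  obtain ⟨x0, hlow, hup, hA, hB, hC⟩ := hyp n k (wA P) (wB P) (wC P) _ _ _ (wt_ok hP) hn h4 hpsi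
  have hc0 : 0 < Psi n k (∑ _r : Fin n, (k : ℝ)) / (n : ℝ) ^ 5 := by positivity
  have hpos : ∀ r c s, Avail P r c s → 0 < x0 r c s := by
    intro r c s h
    have h1 := hlow r c s
    rw [prod_one h, mul_one] at h1
    exact lt_of_lt_of_le hc0 h1
  have hzero : ∀ r c s, ¬ Avail P r c s → x0 r c s = 0 := by
    intro r c s h
    have h1 := hlow r c s
    have h2 := hup r c s
    rw [prod_zero h, mul_zero] at h1 h2
    exact le_antisymm h2 h1
  have hnn : ∀ r c s, 0 ≤ x0 r c s := by
    intro r c s
    by_cases h : Avail P r c s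
    · exact (hpos r c s h).le
    · exact (hzero r c s h).ge
  have hnav : ∀ r c s, P r c = some s → ¬ Avail P r c s := by
    intro r c s h h'
    rw [h'.1] at h
    exact Option.some_ne_none s h.symm
  refine ⟨fun r c s => x0 r c s + if P r c = some s then 1 else 0, ⟨?_, ?_, ?_, ?_, ?_⟩, ?_, ?_⟩
  · intro r c s
    have h1 := hnn r c s
    by_cases h : P r c = some s
    · simp only [h, if_true]
      linarith
    · simp only [h, if_false]
      linarith
  · intro r c
    rw [sum_add_distrib, hA]
    rcases hrc : P r c with _ | t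
    · have h1 : wA P r c = 1 := if_neg fun h => h hrc
      rw [h1]
      simp
    · have h1 : wA P r c = 0 := if_pos (by rw [hrc]; exact Option.some_ne_none t)
      rw [h1, sum_one (fun s => some t = some s) t rfl fun j hj => (Option.some.inj hj).symm]
      norm_num
  · intro r s
    rw [sum_add_distrib, hC]
    by_cases h : ∃ c, P r c = some s
    · have h1 : wC P s r = 0 := if_pos h
      obtain ⟨c, hc⟩ := h
      rw [h1, sum_one (fun c => P r c = some s) c hc fun j hj => hP.row_inj r j c s hj hc]
      norm_num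
    · have h1 : wC P s r = 1 := if_neg h
      have h2 : ∀ c ∈ (univ : Finset (Fin n)), (if P r c = some s then (1 : ℝ) else 0) = 0 :=
        fun c _ => if_neg fun hc => h ⟨c, hc⟩
      rw [h1, sum_congr rfl h2]
      simp
  · intro c s
    rw [sum_add_distrib, hB]
    by_cases h : ∃ r, P r c = some s
    · have h1 : wB P c s = 0 := if_pos h
      obtain ⟨r, hr⟩ := h
      rw [h1, sum_one (fun r => P r c = some s) r hr fun j hj => hP.col_inj j r c s hj hr]
      norm_num
    · have h1 : wB P c s = 1 := if_neg h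
      have h2 : ∀ r ∈ (univ : Finset (Fin n)), (if P r c = some s then (1 : ℝ) else 0) = 0 :=
        fun r _ => if_neg fun hr => h ⟨r, hr⟩
      rw [h1, sum_congr rfl h2]
      simp
  · intro r c s h
    simp only [h, if_true]
    rw [hzero r c s (hnav r c s h)]
    norm_num
  · intro r c s h
    have h1 : P r c ≠ some s := by
      rw [h.1]
      exact (Option.some_ne_none s).symm
    simp only [h1, if_false, add_zero]
    exact hpos r c s h
  · intro r c s h h1
    simp only [h1, if_false, add_zero]
    exact hzero r c s h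

end Pool.Agent.Helper40.FZ
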